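import Mathlib

set_option autoImplicit false
set_option linter.unreachableTactic false
set_option linter.unnecessarySeqFocus false
set_option linter.unusedTactic false

namespace Pool.Agent.Results.MP_89b943_al.DecomposableBlock

universe w

/-- A fusion law over `F`: a set of elements of `F` containing `1` with a set-valued operation. -/
structure FusionLaw (F : Type w) [Field F] where
  /-- the underlying set -/
  carrier : Set F
  one_mem : (1 : F) ∈ carrier
  /-- the operation -/
  op : F → F → Set F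
  op_subset : ∀ l ∈ carrier, ∀ m ∈ carrier, op l m ⊆ carrier

section Defs

variable {F : Type w} [Field F] {A : Type w} [NonUnitalNonAssocCommRing A] [Module F A]
  [IsScalarTower F A A] [SMulCommClass F A A]

/-- `A_l(a) = {u | a u = l u}` -/
def eig (a : A) (l : F) : Submodule F A where
  carrier := {u | a * u = l • u}
  add_mem' := by
    intro x y hx hy
    show a * (x + y) = l • (x + y)
    rw [mul_add, smul_add, show a * x = l • x from hx, show a * y = l • y from hy]
  zero_mem' := by
    show a * 0 = l • (0 : A)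
    rw [mul_zero, smul_zero]
  smul_mem' := by
    intro r x hx
    show a * (r • x) = l • (r • x)
    rw [mul_smul_comm, show a * x = l • x from hx, smul_comm]

/-- `A_S(a)`, the sum of the `A_l(a)`, `l ∈ S` (this sum is always direct) -/
def eigSum (a : A) (S : Set F) : Submodule F A := ⨆ l ∈ S, eig a l

/-- `a` is an axis for the fusion law `L`. -/
def IsAxis (L : FusionLaw F) (a : A) : Prop :=
  a * a = a ∧ eigSum a L.carrier = ⊤ ∧
    ∀ l ∈ L.carrier, ∀ m ∈ L.carrier, ∀ u ∈ eig a l, ∀ v ∈ eig a m, u * v ∈ eigSum a (L.op l m)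

/-- `a` is a primitive axis for the fusion law `L`. -/
def IsPrimitiveAxis (L : FusionLaw F) (a : A) : Prop :=
  IsAxis L a ∧ eig a (1 : F) = Submodule.span F {a}

/-- `(A, X)` is a primitive axial algebra for the fusion law `L`. -/
def IsPrimitiveAxialAlgebra (L : FusionLaw F) (X : Set A) : Prop :=
  (∀ a ∈ X, IsPrimitiveAxis L a) ∧ NonUnitalAlgebra.adjoin F X = ⊤

/-- `K` is an ideal of the algebra `B` (`B` and `K` are subspaces of the commutative algebra `A`,
`B` being closed under multiplication; for `B = A` take `B = ⊤`). -/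
def IsIdealOf (B K : Submodule F A) : Prop := K ≤ B ∧ ∀ x ∈ B, ∀ y ∈ K, x * y ∈ K

variable (F) in
/-- The block `I_a`: the smallest ideal of `A` containing `a`. -/
def block (a : A) : Submodule F A := sInf {I | IsIdealOf (⊤ : Submodule F A) I ∧ a ∈ I}

/-- The algebra `B` is the sum of its proper ideals. -/
def Decomposable (B : Submodule F A) : Prop := sSup {K | IsIdealOf B K ∧ K ≠ B} = B

end Defs

section Example

variable {F : Type w} [Field F]

/-- The four-dimensional algebra with basis `a, u, w, b` and products `a² = a`, `au = l u`,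
`aw = 0`, `ab = l u`, `u² = uw = w² = 0`, `bu = l u + w`, `bw = v w`, `b² = b`. -/
@[ext] structure Alg (l v : F) where
  a : F
  u : F
  w : F
  b : F

namespace Alg

variable {l v : F}

/-- linear coordinates -/
def equiv : Alg l v ≃ (F × F × F × F) where
  toFun x := (x.a, x.u, x.w, x.b)
  invFun y := ⟨y.1, y.2.1, y.2.2.1, y.2.2.2⟩
  left_inv _ := rfl
  right_inv _ := rfl

instance : Zero (Alg l v) := ⟨⟨0, 0, 0, 0⟩⟩
instance : Add (Alg l v) := ⟨fun x y => ⟨x.a + y.a, x.u + y.u, x.w + y.w, x.b + y.b⟩⟩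
instance : Neg (Alg l v) := ⟨fun x => ⟨-x.a, -x.u, -x.w, -x.b⟩⟩
instance : SMul F (Alg l v) := ⟨fun r x => ⟨r * x.a, r * x.u, r * x.w, r * x.b⟩⟩
instance : Mul (Alg l v) := ⟨fun x y =>
  ⟨x.a * y.a,
   l * (x.a * y.u + x.u * y.a) + l * (x.a * y.b + x.b * y.a) + l * (x.u * y.b + x.b * y.u),
   (x.u * y.b + x.b * y.u) + v * (x.w * y.b + x.b * y.w),
   x.b * y.b⟩⟩

@[simp] lemma zero_a : (0 : Alg l v).a = 0 := rfl
@[simp] lemma zero_u : (0 : Alg l v).u = 0 := rfl
@[simp] lemma zero_w : (0 : Alg l v).w = 0 := rfl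
@[simp] lemma zero_b : (0 : Alg l v).b = 0 := rfl
@[simp] lemma add_a (x y : Alg l v) : (x + y).a = x.a + y.a := rfl
@[simp] lemma add_u (x y : Alg l v) : (x + y).u = x.u + y.u := rfl
@[simp] lemma add_w (x y : Alg l v) : (x + y).w = x.w + y.w := rfl
@[simp] lemma add_b (x y : Alg l v) : (x + y).b = x.b + y.b := rfl
@[simp] lemma neg_a (x : Alg l v) : (-x).a = -x.a := rfl
@[simp] lemma neg_u (x : Alg l v) : (-x).u = -x.u := rfl
@[simp] lemma neg_w (x : Alg l v) : (-x).w = -x.w := rfl
@[simp] lemma neg_b (x : Alg l v) : (-x).b = -x.b := rfl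
@[simp] lemma smul_a (r : F) (x : Alg l v) : (r • x).a = r * x.a := rfl
@[simp] lemma smul_u (r : F) (x : Alg l v) : (r • x).u = r * x.u := rfl
@[simp] lemma smul_w (r : F) (x : Alg l v) : (r • x).w = r * x.w := rfl
@[simp] lemma smul_b (r : F) (x : Alg l v) : (r • x).b = r * x.b := rfl
@[simp] lemma mul_a (x y : Alg l v) : (x * y).a = x.a * y.a := rfl
@[simp] lemma mul_u (x y : Alg l v) : (x * y).u =
  l * (x.a * y.u + x.u * y.a) + l * (x.a * y.b + x.b * y.a) + l * (x.u * y.b + x.b * y.u) := rfl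
@[simp] lemma mul_w (x y : Alg l v) : (x * y).w =
  (x.u * y.b + x.b * y.u) + v * (x.w * y.b + x.b * y.w) := rfl
@[simp] lemma mul_b (x y : Alg l v) : (x * y).b = x.b * y.b := rfl

instance : AddCommGroup (Alg l v) where
  add_assoc x y z := by ext <;> simp [add_assoc]
  zero_add x := by ext <;> simp
  add_zero x := by ext <;> simp
  add_comm x y := by ext <;> simp [add_comm]
  neg_add_cancel x := by ext <;> simp
  nsmul := nsmulRec
  zsmul := zsmulRec

instance : Module F (Alg l v) where
  one_smul x := by ext <;> simp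
  mul_smul r s x := by ext <;> simp [mul_assoc]
  smul_zero r := by ext <;> simp
  smul_add r x y := by ext <;> simp [mul_add]
  add_smul r s x := by ext <;> simp [add_mul]
  zero_smul x := by ext <;> simp

instance : NonUnitalNonAssocCommRing (Alg l v) where
  left_distrib x y z := by ext <;> simp <;> ring
  right_distrib x y z := by ext <;> simp <;> ring
  zero_mul x := by ext <;> simp
  mul_zero x := by ext <;> simp
  mul_comm x y := by ext <;> simp <;> ring

instance : IsScalarTower F (Alg l v) (Alg l v) where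
  smul_assoc r x y := by ext <;> simp <;> ring

instance : SMulCommClass F (Alg l v) (Alg l v) where
  smul_comm r x y := by ext <;> simp <;> ring

end Alg

variable (l v : F)

/-- the axis `a` -/
def ea : Alg l v := ⟨1, 0, 0, 0⟩
/-- the axis `b` -/
def eb : Alg l v := ⟨0, 0, 0, 1⟩
def eu : Alg l v := ⟨0, 1, 0, 0⟩
def ew : Alg l v := ⟨0, 0, 1, 0⟩

/-- The fusion law `{0, 1, l, v}` in which every product of two elements is everything. -/
def law : FusionLaw F where
  carrier := {0, 1, l, v}
  one_mem := by simp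
  op := fun _ _ => {0, 1, l, v}
  op_subset := fun _ _ _ _ => subset_rfl

variable {l v}

lemma mem_eigSum {A : Type w} [NonUnitalNonAssocCommRing A] [Module F A]
    [IsScalarTower F A A] [SMulCommClass F A A] {S : Set F} {a x : A} {m : F} (hm : m ∈ S)
    (h : a * x = m • x) : x ∈ eigSum a S := by
  unfold eigSum
  exact Submodule.mem_iSup_of_mem m (Submodule.mem_iSup_of_mem hm h)

lemma top_a : eigSum (ea l v) (law l v).carrier = ⊤ := by
  rw [eq_top_iff]
  intro x _
  have h0 : (0 : F) ∈ (law l v).carrier := by simp [law]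
  have h1 : (1 : F) ∈ (law l v).carrier := by simp [law]
  have hl : l ∈ (law l v).carrier := by simp [law]
  have e1 : (⟨x.a, 0, 0, 0⟩ : Alg l v) ∈ eigSum (ea l v) (law l v).carrier :=
    mem_eigSum h1 (by ext <;> simp [ea])
  have e2 : (⟨0, x.u + x.b, 0, 0⟩ : Alg l v) ∈ eigSum (ea l v) (law l v).carrier :=
    mem_eigSum hl (by ext <;> simp [ea])
  have e3 : (⟨0, -x.b, x.w, x.b⟩ : Alg l v) ∈ eigSum (ea l v) (law l v).carrier :=
    mem_eigSum h0 (by ext <;> simp [ea])
  have h : x = (⟨x.a, 0, 0, 0⟩ : Alg l v) + (⟨0, x.u + x.b, 0, 0⟩ + ⟨0, -x.b, x.w, x.b⟩) := by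
    ext <;> simp
  rw [h]
  exact Submodule.add_mem _ e1 (Submodule.add_mem _ e2 e3)

lemma top_b (hv0 : v ≠ 0) (hlv : l ≠ v) : eigSum (eb l v) (law l v).carrier = ⊤ := by
  rw [eq_top_iff]
  intro x _
  have h0 : (0 : F) ∈ (law l v).carrier := by simp [law]
  have h1 : (1 : F) ∈ (law l v).carrier := by simp [law]
  have hl : l ∈ (law l v).carrier := by simp [law]
  have hv : v ∈ (law l v).carrier := by simp [law]
  have hd : l - v ≠ 0 := sub_ne_zero.mpr hlv
  have e1 : (⟨0, 0, 0, x.b⟩ : Alg l v) ∈ eigSum (eb l v) (law l v).carrier :=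
    mem_eigSum h1 (by ext <;> simp [eb])
  have e2 : (⟨x.a, -x.a, x.a / v, 0⟩ : Alg l v) ∈ eigSum (eb l v) (law l v).carrier :=
    mem_eigSum h0 (by ext <;> simp [eb] <;> field_simp <;> ring)
  have e3 : (⟨0, x.u + x.a, (x.u + x.a) / (l - v), 0⟩ : Alg l v) ∈
      eigSum (eb l v) (law l v).carrier :=
    mem_eigSum hl (by ext <;> simp [eb] <;> field_simp <;> ring)
  have e4 : (⟨0, 0, x.w - x.a / v - (x.u + x.a) / (l - v), 0⟩ : Alg l v) ∈
      eigSum (eb l v) (law l v).carrier :=
    mem_eigSum hv (by ext <;> simp [eb])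
  have h : x = (⟨0, 0, 0, x.b⟩ : Alg l v) + (⟨x.a, -x.a, x.a / v, 0⟩ +
      (⟨0, x.u + x.a, (x.u + x.a) / (l - v), 0⟩ +
        ⟨0, 0, x.w - x.a / v - (x.u + x.a) / (l - v), 0⟩)) := by
    ext <;> simp <;> ring
  rw [h]
  exact Submodule.add_mem _ e1 (Submodule.add_mem _ e2 (Submodule.add_mem _ e3 e4))

lemma prim_a (hl1 : l ≠ 1) : IsPrimitiveAxis (law l v) (ea l v) := by
  refine ⟨⟨by ext <;> simp [ea], top_a, fun _ _ _ _ x _ y _ => ?_⟩, ?_⟩
  · show x * y ∈ eigSum (ea l v) (law l v).carrier
    rw [top_a]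
    trivial
  · apply le_antisymm
    · intro x hx
      have h : ea l v * x = (1 : F) • x := hx
      have h1 := congrArg Alg.u h
      have h2 := congrArg Alg.w h
      have h3 := congrArg Alg.b h
      simp [ea] at h1 h2 h3
      rw [Submodule.mem_span_singleton]
      refine ⟨x.a, ?_⟩
      rw [← h3, mul_zero, add_zero] at h1
      have h4 : (l - 1) * x.u = 0 := by linear_combination h1
      have h5 : x.u = 0 := by
        rcases mul_eq_zero.mp h4 with h6 | h6
        · exact absurd (sub_eq_zero.mp h6) hl1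
        · exact h6
      ext
      · simp [ea]
      · simp [ea, h5]
      · simp [ea, ← h2]
      · simp [ea, ← h3]
    · rw [Submodule.span_singleton_le_iff_mem]
      show ea l v * ea l v = (1 : F) • ea l v
      ext <;> simp [ea]

lemma prim_b (hl1 : l ≠ 1) (hv0 : v ≠ 0) (hv1 : v ≠ 1) (hlv : l ≠ v) :
    IsPrimitiveAxis (law l v) (eb l v) := by
  refine ⟨⟨by ext <;> simp [eb], top_b hv0 hlv, fun _ _ _ _ x _ y _ => ?_⟩, ?_⟩
  · show x * y ∈ eigSum (eb l v) (law l v).carrier
    rw [top_b hv0 hlv]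
    trivial
  · apply le_antisymm
    · intro x hx
      have h : eb l v * x = (1 : F) • x := hx
      have h1 := congrArg Alg.u h
      have h2 := congrArg Alg.w h
      have h3 := congrArg Alg.a h
      simp [eb] at h1 h2 h3
      rw [Submodule.mem_span_singleton]
      refine ⟨x.b, ?_⟩
      rw [← h3, mul_zero, zero_add] at h1
      have h4 : (l - 1) * x.u = 0 := by linear_combination h1
      have h5 : x.u = 0 := by
        rcases mul_eq_zero.mp h4 with h6 | h6
        · exact absurd (sub_eq_zero.mp h6) hl1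
        · exact h6
      rw [h5, zero_add] at h2
      have h6 : (v - 1) * x.w = 0 := by linear_combination h2
      have h7 : x.w = 0 := by
        rcases mul_eq_zero.mp h6 with h8 | h8
        · exact absurd (sub_eq_zero.mp h8) hv1
        · exact h8
      ext
      · simp [eb, ← h3]
      · simp [eb, h5]
      · simp [eb, h7]
      · simp [eb]
    · rw [Submodule.span_singleton_le_iff_mem]
      show eb l v * eb l v = (1 : F) • eb l v
      ext <;> simp [eb]

/-- the block of `a` -/
def Ia (l v : F) : Submodule F (Alg l v) where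
  carrier := {x | x.b = 0}
  add_mem' := by
    intro x y hx hy
    show x.b + y.b = 0
    rw [show x.b = 0 from hx, show y.b = 0 from hy, add_zero]
  zero_mem' := rfl
  smul_mem' := by
    intro r x hx
    show r * x.b = 0
    rw [show x.b = 0 from hx, mul_zero]

/-- the span of `a` and `u` -/
def K1 (l v : F) : Submodule F (Alg l v) where
  carrier := {x | x.b = 0 ∧ x.w = 0}
  add_mem' := by
    rintro x y ⟨h1, h2⟩ ⟨h3, h4⟩
    exact ⟨by simp [h1, h3], by simp [h2, h4]⟩
  zero_mem' := ⟨rfl, rfl⟩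
  smul_mem' := by
    rintro r x ⟨h1, h2⟩
    exact ⟨by simp [h1], by simp [h2]⟩

/-- the span of `w` -/
def K2 (l v : F) : Submodule F (Alg l v) where
  carrier := {x | x.b = 0 ∧ x.a = 0 ∧ x.u = 0}
  add_mem' := by
    rintro x y ⟨h1, h2, h3⟩ ⟨h4, h5, h6⟩
    exact ⟨by simp [h1, h4], by simp [h2, h5], by simp [h3, h6]⟩
  zero_mem' := ⟨rfl, rfl, rfl⟩
  smul_mem' := by
    rintro r x ⟨h1, h2, h3⟩
    exact ⟨by simp [h1], by simp [h2], by simp [h3]⟩

lemma block_a (hl0 : l ≠ 0) : block F (ea l v) = Ia l v := by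
  apply le_antisymm
  · apply sInf_le
    refine ⟨⟨le_top, ?_⟩, rfl⟩
    intro x _ y hy
    show x.b * y.b = 0
    rw [show y.b = 0 from hy, mul_zero]
  · apply le_sInf
    rintro I ⟨⟨_, hI⟩, ha⟩
    have hu : eu l v ∈ I := by
      have h1 := hI (eb l v) trivial _ ha
      have h2 : eu l v = l⁻¹ • (eb l v * ea l v) := by
        ext <;> simp [eu, eb, ea, hl0]
      rw [h2]
      exact I.smul_mem _ h1
    have hw : ew l v ∈ I := by
      have h1 := hI (eb l v) trivial _ hu
      have h2 : ew l v = (eb l v * eu l v) + (-l) • eu l v := by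
        ext <;> simp [eu, eb, ew]
      rw [h2]
      exact I.add_mem h1 (I.smul_mem _ hu)
    intro x hx
    have hx' : x.b = 0 := hx
    have h : x = x.a • ea l v + (x.u • eu l v + x.w • ew l v) := by
      ext <;> simp [ea, eu, ew, hx']
    rw [h]
    exact I.add_mem (I.smul_mem _ ha) (I.add_mem (I.smul_mem _ hu) (I.smul_mem _ hw))

lemma decomposable_Ia : Decomposable (Ia l v) := by
  unfold Decomposable
  apply le_antisymm
  · apply sSup_le
    rintro K ⟨⟨hK, _⟩, _⟩
    exact hK
  · have h1 : K1 l v ∈ {K | IsIdealOf (Ia l v) K ∧ K ≠ Ia l v} := by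
      refine ⟨⟨fun x hx => hx.1, ?_⟩, ?_⟩
      · intro x hx y hy
        have hx' : x.b = 0 := hx
        have hy' : y.b = 0 := hy.1
        refine ⟨?_, ?_⟩
        · simp [hy']
        · simp [hx', hy']
      · intro h
        have h2 : ew l v ∈ Ia l v := rfl
        rw [← h] at h2
        exact one_ne_zero (h2.2)
    have h2 : K2 l v ∈ {K | IsIdealOf (Ia l v) K ∧ K ≠ Ia l v} := by
      refine ⟨⟨fun x hx => hx.1, ?_⟩, ?_⟩
      · intro x hx y hy
        have hx' : x.b = 0 := hx
        obtain ⟨hy1, hy2, hy3⟩ := hy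
        refine ⟨?_, ?_, ?_⟩
        · simp [hy1]
        · simp [hy2]
        · simp [hx', hy1, hy2, hy3]
      · intro h
        have h2 : ea l v ∈ Ia l v := rfl
        rw [← h] at h2
        exact one_ne_zero (h2.2.1)
    intro x hx
    have hx' : x.b = 0 := hx
    have h3 : (⟨x.a, x.u, 0, 0⟩ : Alg l v) ∈ K1 l v := ⟨rfl, rfl⟩
    have h4 : (⟨0, 0, x.w, 0⟩ : Alg l v) ∈ K2 l v := ⟨rfl, rfl, rfl⟩
    have h : x = (⟨x.a, x.u, 0, 0⟩ : Alg l v) + ⟨0, 0, x.w, 0⟩ := by
      ext <;> simp [hx']
    rw [h]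
    exact Submodule.add_mem _ (le_sSup h1 h3) (le_sSup h2 h4)

lemma adjoin_top (hl0 : l ≠ 0) :
    NonUnitalAlgebra.adjoin F ({ea l v, eb l v} : Set (Alg l v)) = ⊤ := by
  rw [eq_top_iff]
  intro x _
  set S := NonUnitalAlgebra.adjoin F ({ea l v, eb l v} : Set (Alg l v)) with hS
  have ha : ea l v ∈ S := NonUnitalAlgebra.subset_adjoin F (by simp)
  have hb : eb l v ∈ S := NonUnitalAlgebra.subset_adjoin F (by simp)
  have hu : eu l v ∈ S := by
    have h2 : eu l v = l⁻¹ • (eb l v * ea l v) := by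
      ext <;> simp [eu, eb, ea, hl0]
    rw [h2]
    exact SMulMemClass.smul_mem _ (mul_mem hb ha)
  have hw : ew l v ∈ S := by
    have h2 : ew l v = (eb l v * eu l v) + (-l) • eu l v := by
      ext <;> simp [eu, eb, ew]
    rw [h2]
    exact add_mem (mul_mem hb hu) (SMulMemClass.smul_mem _ hu)
  have h : x = x.a • ea l v + (x.u • eu l v + (x.w • ew l v + x.b • eb l v)) := by
    ext <;> simp [ea, eu, ew, eb]
  rw [h]
  exact add_mem (SMulMemClass.smul_mem _ ha) (add_mem (SMulMemClass.smul_mem _ hu)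
    (add_mem (SMulMemClass.smul_mem _ hw) (SMulMemClass.smul_mem _ hb)))

end Example

/-- **Over every field with at least four elements there is a primitive axial algebra `(A, X)` with
an axis `a ∈ X` whose block `I_a` is the sum of its proper ideals.** -/
theorem result (F : Type w) [Field F]
    (hF : ∃ l v : F, l ≠ 0 ∧ l ≠ 1 ∧ v ≠ 0 ∧ v ≠ 1 ∧ l ≠ v) :
    ∃ (A : Type w) (_ : NonUnitalNonAssocCommRing A) (_ : Module F A) (_ : IsScalarTower F A A)
      (_ : SMulCommClass F A A) (L : FusionLaw F) (X : Set A) (a : A),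
      IsPrimitiveAxialAlgebra L X ∧ a ∈ X ∧ Decomposable (block F a) := by
  obtain ⟨l, v, hl0, hl1, hv0, hv1, hlv⟩ := hF
  refine ⟨Alg l v, inferInstance, inferInstance, inferInstance, inferInstance, law l v,
    {ea l v, eb l v}, ea l v, ⟨?_, adjoin_top hl0⟩, by simp, ?_⟩
  · intro x hx
    rcases hx with rfl | hx
    · exact prim_a hl1
    · rw [Set.mem_singleton_iff] at hx
      rw [hx]
      exact prim_b hl1 hv0 hv1 hlv
  · rw [block_a hl0]
    exact decomposable_Ia

end Pool.Agent.Results.MP_89b943_al.DecomposableBlock
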